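import Pool.Agent.H91R2.RFD.Main

/-!
# RFD-varieties are not closed under subvarieties or intersections of chains

There is a descending chain of finitely based RFD-varieties, starting with the variety defined by
`((xy)(zt))v = 0` and `v((xy)(zt)) = 0`, whose intersection is not an RFD-variety.
-/

namespace Pool.Agent.Results.MP_038c09_al.Chain

open H91RFD

universe u

theorem result (F : Type u) [Field F] :
    ∃ S : ℕ → Set (H91RFD.Poly F), Monotone S ∧ S 0 = {B1 F, B2 F} ∧
      (∀ j, (S j).Finite ∧ RFDVariety F (S j)) ∧ ¬ RFDVariety F (⋃ j, S j) ∧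
      RFDVariety F ((⋃ j, S j) ∪ {X F 0 * X F 1}) :=
  chain F

end Pool.Agent.Results.MP_038c09_al.Chain
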