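import Pool.Agent.H91R2.RFD.Main

/-!
# Varieties of nonassociative algebras whose finitely presented members are residually
finite-dimensional: exact descriptive complexity

Over a field `F` of characteristic `0` the RFD-varieties form a Π⁰₃-hard subset of the space of
T-ideals (with the topology of pointwise convergence), already below the variety defined by the
two identities `((xy)(zt))v = 0` and `v((xy)(zt)) = 0`; they do not form a Σ⁰₃ set there, and for
countable `F` the set is exactly Π⁰₃ (even for arbitrary systems of identities).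
-/

namespace Pool.Agent.Results.MP_038c09_al.NoDescription

open H91RFD

universe u v

theorem result (F : Type u) [Field F] [CharZero F] :
    (∀ (X : Type v) [TopologicalSpace X] (U : ℕ → ℕ → ℕ → Set X),
      (∀ n m k, IsClopen (U n m k)) →
      ∃ Φ : X → (H91RFD.Poly F → Bool), Continuous Φ ∧
        (∀ x, IsTIdeal F {p | Φ x p = true} ∧ Φ x (B1 F) = true ∧ Φ x (B2 F) = true) ∧
        ∀ x, RFDVariety F {p | Φ x p = true} ↔ ∀ n, ∃ m, ∀ k, x ∈ U n m k) ∧
    (¬ ∃ O : ℕ → ℕ → Set (H91RFD.Poly F → Bool), (∀ n m, IsOpen (O n m)) ∧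
      ∀ σ : H91RFD.Poly F → Bool, IsTIdeal F {p | σ p = true} → σ (B1 F) = true → σ (B2 F) = true →
        (RFDVariety F {p | σ p = true} ↔ ∃ n, ∀ m, σ ∈ O n m)) ∧
    (Countable F → ∃ U : ℕ → ℕ → ℕ → Set (H91RFD.Poly F → Bool), (∀ n m k, IsClopen (U n m k)) ∧
      ∀ σ : H91RFD.Poly F → Bool, RFDVariety F {p | σ p = true} ↔ ∀ n, ∃ m, ∀ k, σ ∈ U n m k) :=
  ⟨fun _ _ U hU => hardness F U hU, not_sigma F, fun _ => upper_bound F⟩

end Pool.Agent.Results.MP_038c09_al.NoDescription
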